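import Mathlib
import Pool.Agent.H29.Invol

open Pool.Agent.H29.Invol
open scoped Pointwise

namespace Pool.Agent.Results.MP_32cd73_al.NotDense

/-- The proportion `i(G)` of elements of order exactly `2`. -/
noncomputable def prop (G : Type) [Group G] : ℝ :=
  (Nat.card {x : G // orderOf x = 2} : ℝ) / Nat.card G

/-- The set of involution proportions of finite groups. -/
def Vals : Set ℝ := {r | ∃ (G : Type) (_ : Group G) (_ : Finite G), r = prop G}

def W (e : ℕ) : Set ℂ := insert 0 (insert (-1) {z | z ^ e = 1})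

def F (e R : ℕ) : Set ℝ := (fun p : ℂ × ℕ => p.1.re / p.2) '' ((R ^ 2 • W e) ×ˢ Set.Iic (R ^ 3))

def T (e : ℕ) : Set ℝ := {c | ∀ R : ℕ, 1 < |c| * R → c ∈ F e R}

lemma sum_mem {M ι : Type*} [AddCommMonoid M] {A : Set M} (h0 : 0 ∈ A) (s : Finset ι) (f : ι → M)
    (hf : ∀ i ∈ s, f i ∈ A) {L : ℕ} (hL : s.card ≤ L) : ∑ i ∈ s, f i ∈ L • A := by
  classical
  refine Set.nsmul_right_monotone h0 hL ?_
  clear hL
  induction s using Finset.induction_on with
  | empty => simp
  | insert a s ha ih =>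
    simp only at ih ⊢
    rw [Finset.sum_insert ha, Finset.card_insert_of_notMem ha, succ_nsmul']
    exact Set.add_mem_add (hf a (by simp)) (ih fun i hi => hf i (by simp [hi]))

lemma F_fin {e : ℕ} (he : 0 < e) (R : ℕ) : (F e R).Finite := by
  have hW : (W e).Finite := by
    refine Set.Finite.insert _ (Set.Finite.insert _ ?_)
    refine (Polynomial.nthRootsFinset e (1 : ℂ)).finite_toSet.subset fun z hz => ?_
    exact (Polynomial.mem_nthRootsFinset he _).2 hz
  refine Set.Finite.image _ (Set.Finite.prod ?_ (Set.finite_Iic _))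
  induction R ^ 2 with
  | zero => simp
  | succ n ih => rw [succ_nsmul]; exact ih.add hW

lemma T_zero (e : ℕ) : 0 ∈ T e := fun R h => by norm_num at h

lemma T_count {e : ℕ} (he : 0 < e) : (T e).Countable := by
  refine ((Set.countable_iUnion fun R => (F_fin he R).countable).insert 0).mono fun c hc => ?_
  by_cases h : c = 0
  · exact Or.inl h
  · obtain ⟨R, hR⟩ := exists_nat_gt (1 / |c|)
    rw [div_lt_iff₀ (abs_pos.2 h), mul_comm] at hR
    exact Or.inr (Set.mem_iUnion.2 ⟨R, hc R hR⟩)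

lemma T_comp {e : ℕ} (he : 0 < e) : IsCompact (T e) := by
  refine Metric.isCompact_of_isClosed_isBounded ?_ ?_
  · have : T e = ⋂ R : ℕ, ({c : ℝ | |c| * R ≤ 1} ∪ F e R) := by
      ext c
      simp only [T, Set.mem_ofPred_eq, Set.mem_iInter, Set.mem_union, ← not_lt, imp_iff_not_or]
    rw [this]
    exact isClosed_iInter fun R =>
      (isClosed_le (by fun_prop) continuous_const).union (F_fin he R).isClosed
  · refine ((Metric.isBounded_Icc (-1 : ℝ) 1).union (F_fin he 1).isBounded).subset fun c hc => ?_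
    by_cases h : |c| ≤ 1
    · exact Or.inl (abs_le.1 h)
    · exact Or.inr (hc 1 (by simpa using h))

lemma ns_good {A : Set ℝ} (h : IsCompact A ∧ A.Countable) (L : ℕ) :
    IsCompact (L • A) ∧ (L • A).Countable := by
  induction L with
  | zero => rw [zero_nsmul]; exact ⟨isCompact_singleton, Set.countable_singleton _⟩
  | succ n ih => rw [succ_nsmul]; exact ⟨ih.1.add h.1, ih.2.image2 h.2 _⟩

open Classical in
lemma sum_cos {G M : Type*} [Group G] [Fintype G] [AddCommMonoid M] (N : Subgroup G)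
    (x : G ⧸ N → G) (hx : ∀ q, (x q : G ⧸ N) = q) (f : G → M) :
    ∑ g, f g = ∑ q, ∑ n : N, f (x q * n) := by
  rw [← Fintype.sum_prod_type']
  symm
  refine Fintype.sum_bijective (fun p : (G ⧸ N) × N => x p.1 * p.2) ⟨?_, fun g => ?_⟩ _ _
    fun _ => rfl
  · rintro ⟨q, n⟩ ⟨q', n'⟩ h
    simp only at h
    have : q = q' := by
      rw [← hx q, ← hx q', ← QuotientGroup.mk_mul_of_mem _ n.2, h, QuotientGroup.mk_mul_of_mem _ n'.2]
    subst this
    simpa using h
  · exact ⟨(g, ⟨(x g)⁻¹ * g, QuotientGroup.eq.1 (hx g)⟩), by simp⟩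

lemma gauss {H : Type*} [Group H] [Fintype H] {e : ℕ} (he : 0 < e) (φ : H → ℂ)
    (h1 : ∀ h, φ h ^ e = 1) (h2 : ∀ m, ∃ ψ : H →* ℂ, ∀ n, φ (n * m) = φ n * ψ n * φ m)
    (D : ℕ) (hD : 0 < D) : (∑ h, φ h).re / (Nat.card H * D) ∈ T e := by
  classical
  intro R hR
  have hS : ∑ h, φ h ≠ 0 := by
    intro h; rw [h] at hR; norm_num at hR
  let P : Subgroup H :=
    { carrier := {m | ∀ n, φ (n * m) = φ n}
      one_mem' := fun n => by rw [mul_one]
      mul_mem' := fun {a b} ha hb n => by rw [← mul_assoc, hb, ha]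
      inv_mem' := fun {a} ha n => by rw [← ha, inv_mul_cancel_right] }
  have hu : ∀ n, φ n * (starRingEnd ℂ) (φ n) = 1 := fun n => by
    rw [Complex.mul_conj, Complex.normSq_eq_norm_sq,
      Complex.norm_eq_one_of_pow_eq_one (h1 n) he.ne']; simp
  have hsh : ∀ m, ∑ n, φ (n * m) = ∑ h, φ h := fun m =>
    Fintype.sum_equiv (Equiv.mulRight m) _ _ fun _ => rfl
  have hq : (∑ h, φ h) * (starRingEnd ℂ) (∑ h, φ h) = Nat.card P * Nat.card H := by
    rw [map_sum, Finset.mul_sum]
    have a1 : ∀ n, (∑ h, φ h) * (starRingEnd ℂ) (φ n) =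
        ∑ m, φ (n * m) * (starRingEnd ℂ) (φ n) := fun n => by
      rw [← Finset.sum_mul, Fintype.sum_equiv (Equiv.mulLeft n) (fun m => φ (n * m)) φ fun _ => rfl]
    simp_rw [a1]
    rw [Finset.sum_comm]
    have a2 : ∀ m, ∑ n, φ (n * m) * (starRingEnd ℂ) (φ n) =
        if m ∈ P then (Nat.card H : ℂ) else 0 := by
      intro m
      split_ifs with hm
      · have hm' : ∀ n, φ (n * m) = φ n := hm
        simp [hm', hu]
      · obtain ⟨ψ, hψ⟩ := h2 m
        have hne : ψ ≠ 1 := by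
          rintro rfl
          apply hm
          have := hsh m
          simp only [hψ, MonoidHom.one_apply, mul_one] at this
          rw [← Finset.sum_mul] at this
          have h3 : φ m = 1 := mul_left_cancel₀ hS (by rw [this, mul_one])
          intro n
          rw [hψ, h3]; simp
        have : ∀ n, φ (n * m) * (starRingEnd ℂ) (φ n) = ψ n * φ m := fun n => by
          rw [hψ]; linear_combination (ψ n * φ m) * hu n
        simp_rw [this]
        rw [← Finset.sum_mul, sum_hom_units_eq_zero ψ hne, zero_mul]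
    simp_rw [a2]
    rw [← Finset.sum_filter, Finset.sum_const, nsmul_eq_mul, Nat.card_eq_fintype_card (α := P),
      Fintype.card_subtype]
  set s : ℂ := ∑ q : H ⧸ P, φ q.out with hs
  have hSs : ∑ h, φ h = Nat.card P * s := by
    rw [sum_cos P Quotient.out (fun q => q.out_eq') φ, hs, Finset.mul_sum]
    refine Finset.sum_congr rfl fun q _ => ?_
    have : ∀ n : P, φ (q.out * n) = φ q.out := fun n => n.2 _
    simp [this]
  have hc : (Nat.card H : ℝ) = Nat.card P * P.index := by exact_mod_cast P.card_mul_index.symm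
  have hP : (0 : ℝ) < Nat.card P := by exact_mod_cast Nat.card_pos
  have hr : 0 < P.index := Nat.pos_of_ne_zero Subgroup.index_ne_zero_of_finite
  have hr' : (1 : ℝ) ≤ P.index := by exact_mod_cast hr
  have hD' : (1 : ℝ) ≤ D := by exact_mod_cast hD
  have hn : Complex.normSq s = P.index := by
    rw [Complex.mul_conj, hSs, map_mul, Complex.normSq_natCast] at hq
    have hq' : (Nat.card P : ℝ) * Nat.card P * Complex.normSq s = Nat.card P * Nat.card H := by
      exact_mod_cast hq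
    rw [hc] at hq'
    have : (Nat.card P : ℝ) * Nat.card P * (Complex.normSq s - P.index) = 0 := by linarith
    rcases mul_eq_zero.1 this with h | h
    · exact absurd h (by positivity)
    · linarith
  have hv : (∑ h, φ h).re / (Nat.card H * D) = s.re / ((P.index * D : ℕ) : ℝ) := by
    rw [hSs, hc, ← Complex.ofReal_natCast, Complex.re_ofReal_mul]; push_cast; field_simp
  rw [hv] at hR ⊢
  have hle : P.index * D ^ 2 < R ^ 2 := by
    have b1 : s.re * s.re ≤ P.index := hn ▸ Complex.re_sq_le_normSq s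
    rw [abs_div, Nat.abs_cast, div_mul_eq_mul_div, one_lt_div (by positivity)] at hR
    push_cast at hR
    have b2 := mul_self_lt_mul_self (by positivity) hR
    have b3 : |s.re| * R * (|s.re| * R) = s.re * s.re * R ^ 2 := by
      rw [← abs_mul_abs_self s.re]; ring
    rw [b3] at b2
    have b4 : (P.index : ℝ) * (P.index * D ^ 2) < P.index * R ^ 2 := by
      nlinarith [mul_le_mul_of_nonneg_right b1 (sq_nonneg (R : ℝ))]
    have := lt_of_mul_lt_mul_left b4 (by positivity)
    exact_mod_cast this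
  have c1 : P.index ≤ R ^ 2 := le_trans (Nat.le_mul_of_pos_right _ (by positivity)) hle.le
  have c2 : D ≤ R := by
    have : D ^ 2 ≤ R ^ 2 := le_trans (Nat.le_mul_of_pos_left _ hr) hle.le
    exact (Nat.pow_le_pow_iff_left (by norm_num)).1 this
  have c3 : s ∈ R ^ 2 • W e := by
    refine sum_mem (A := W e) (Or.inl rfl) _ _ (fun q _ => Or.inr (Or.inr (h1 _))) ?_
    rw [Finset.card_univ, ← Nat.card_eq_fintype_card]
    exact c1
  exact ⟨(s, P.index * D), ⟨c3, (Nat.mul_le_mul c1 c2).trans (le_of_eq (by ring))⟩, rfl⟩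

open Classical in
lemma chars {G : Type} [Group G] [Finite G] (Z : Subgroup G)
    (hZ : ∀ a ∈ Z, ∀ b ∈ Z, a * b = b * a) :
    ∃ (ι : Type) (_ : Fintype ι) (χ : ι → G → ℂ), Fintype.card ι = Nat.card Z ∧
      (∀ i, ∀ a ∈ Z, ∀ b ∈ Z, χ i (a * b) = χ i a * χ i b) ∧ (∀ i, χ i 1 = 1) ∧
      ∀ a ∈ Z, ∑ i, χ i a = if a = 1 then (Nat.card Z : ℂ) else 0 := by
  letI : CommGroup Z := { (inferInstance : Group Z) with
    mul_comm := fun a b => Subtype.ext (hZ a.1 a.2 b.1 b.2) }
  haveI := Fintype.ofFinite (Additive Z)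
  have hc : Fintype.card (Additive Z) = Nat.card Z := by
    rw [← Nat.card_eq_fintype_card]; rfl
  refine ⟨AddChar (Additive Z) ℂ, inferInstance,
    fun i g => if h : g ∈ Z then i (Additive.ofMul ⟨g, h⟩) else 0, ?_, ?_, ?_, ?_⟩
  · rw [AddChar.card_eq, hc]
  · intro i a ha b hb
    simp only [ha, hb, Z.mul_mem ha hb, dif_pos]
    exact i.map_add_eq_mul (Additive.ofMul ⟨a, ha⟩) (Additive.ofMul ⟨b, hb⟩)
  · intro i
    simp only [Z.one_mem, dif_pos]
    exact i.map_zero_eq_one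
  · intro a ha
    simp only [ha, dif_pos]
    rw [AddChar.sum_apply_eq_ite, hc]
    congr 1
    exact propext ⟨fun h => congrArg Subtype.val (h : (⟨a, ha⟩ : Z) = 1),
      fun h => (Subtype.ext h : (⟨a, ha⟩ : Z) = 1)⟩

open Classical in
lemma sum_sub {G : Type} [Group G] [Fintype G] (N : Subgroup G) (f : G → ℝ) :
    ∑ n : N, f n = ∑ g, if g ∈ N then f g else 0 := by
  rw [← Finset.sum_filter]
  exact (Finset.sum_subtype _ (by simp) f).symm

open Classical in
lemma coset {G : Type} [Group G] [Fintype G] {C : ℕ} (N Z : Subgroup G) (hN : N.Normal)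
    (hC : Nat.card Z ≤ C) (hZN : Z ≤ N) (h1 : ∀ a ∈ N, ∀ b ∈ N, a * b * a⁻¹ * b⁻¹ ∈ Z)
    (h2 : ∀ z ∈ Z, ∀ n ∈ N, z * n = n * z) (x : G) (hx : x * x = 1) :
    (∑ n : N, if x * n * (x * n) = 1 then (1 : ℝ) else 0) / Nat.card G ∈ C • T C.factorial := by
  obtain ⟨ι, _, χ, c0, c1, c2, c3⟩ := chars Z fun a ha b hb => h2 a ha b (hZN hb)
  have hxi : x⁻¹ = x := inv_eq_of_mul_eq_one_right hx
  have hb : ∀ n ∈ N, ∀ m ∈ N, n⁻¹ * (x * m * x) * n * (x * m * x)⁻¹ ∈ Z := fun n hn m hm => by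
    have := h1 _ (N.inv_mem hn) _ (hN.conj_mem m hm x)
    rwa [inv_inv, hxi] at this
  have hθ : ∀ n m : G, x * (n * m) * (x * (n * m)) =
      x * n * (x * n) * (n⁻¹ * (x * m * x) * n * (x * m * x)⁻¹) * (x * m * (x * m)) := by
    intro n m
    calc _ = x * n * (x * x) * m * x * n * m := by rw [hx]; group
      _ = _ := by group
  let M : Subgroup G :=
    { carrier := {n | n ∈ N ∧ x * n * (x * n) ∈ Z}
      one_mem' := ⟨N.one_mem, by simp [hx]⟩
      mul_mem' := fun {a b} ha hb' => ⟨N.mul_mem ha.1 hb'.1, by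
        rw [hθ]; exact Z.mul_mem (Z.mul_mem ha.2 (hb a ha.1 b hb'.1)) hb'.2⟩
      inv_mem' := fun {a} ha => ⟨N.inv_mem ha.1, by
        have := hθ a a⁻¹
        rw [mul_inv_cancel, mul_one, hx] at this
        rw [eq_inv_of_mul_eq_one_right this.symm]
        exact Z.inv_mem (Z.mul_mem ha.2 (hb a ha.1 _ (N.inv_mem ha.1)))⟩ }
  have hZp : 0 < Nat.card Z := Nat.card_pos
  have e1 : (∑ n : N, if x * n * (x * n) = 1 then (1 : ℝ) else 0) =
      ∑ n : M, if x * n * (x * n) = 1 then (1 : ℝ) else 0 := by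
    rw [sum_sub N fun n => if x * n * (x * n) = 1 then (1 : ℝ) else 0,
      sum_sub M fun n => if x * n * (x * n) = 1 then (1 : ℝ) else 0]
    refine Finset.sum_congr rfl fun g _ => ?_
    by_cases h : x * g * (x * g) = 1
    · have : g ∈ N ↔ g ∈ M := ⟨fun hg => ⟨hg, h ▸ Z.one_mem⟩, fun hg => hg.1⟩
      simp only [this]
    · simp [h]
  have e2 : (∑ n : M, if x * n * (x * n) = 1 then (1 : ℝ) else 0) / Nat.card G =
      ∑ i, (∑ n : M, χ i (x * n * (x * n))).re / (Nat.card M * (M.index * Nat.card Z : ℕ)) := by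
    rw [← Finset.sum_div, ← Complex.re_sum, Finset.sum_comm, Complex.re_sum,
      ← M.card_mul_index]
    have : ∀ n : M, (∑ i, χ i (x * n * (x * n))).re =
        (if x * n * (x * n) = 1 then (1 : ℝ) else 0) * Nat.card Z := fun n => by
      rw [c3 _ n.2.2]; split_ifs <;> simp
    simp_rw [this]
    rw [← Finset.sum_mul]
    have : (Nat.card Z : ℝ) ≠ 0 := by exact_mod_cast hZp.ne'
    push_cast
    rw [← mul_assoc, mul_div_mul_right _ _ this]
  rw [e1, e2]
  refine sum_mem (T_zero _) _ _ (fun i _ => ?_) (by rw [Finset.card_univ, c0]; exact hC)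
  have hpow : ∀ a ∈ Z, ∀ k : ℕ, χ i a ^ k = χ i (a ^ k) := fun a ha k => by
    induction k with
    | zero => simp [c2]
    | succ k ih => rw [pow_succ, pow_succ, c1 i _ (Z.pow_mem ha k) _ ha, ih]
  refine gauss (Nat.factorial_pos C) _ (fun n => ?_) (fun m => ?_) _
    (Nat.mul_pos (Nat.pos_of_ne_zero Subgroup.index_ne_zero_of_finite) hZp)
  · obtain ⟨d, hd⟩ := Nat.dvd_factorial hZp hC
    rw [hd, pow_mul, hpow _ n.2.2]
    have : (x * n * (x * n)) ^ Nat.card Z = 1 :=
      congrArg Subtype.val (pow_card_eq_one' (x := (⟨_, n.2.2⟩ : Z)))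
    rw [this, c2, one_pow]
  · refine ⟨⟨⟨fun n => χ i ((n : G)⁻¹ * (x * m * x) * n * (x * m * x)⁻¹), by simp [c2]⟩,
      fun a b => ?_⟩, fun n => ?_⟩
    · simp only
      rw [← c1 i _ (hb _ a.2.1 _ m.2.1) _ (hb _ b.2.1 _ m.2.1)]
      congr 1
      have := h2 _ (hb _ a.2.1 _ m.2.1) _ (N.inv_mem b.2.1)
      generalize x * m * x = y at this ⊢
      rw [Subgroup.coe_mul]
      calc _ = (b : G)⁻¹ * ((a : G)⁻¹ * y * a * y⁻¹) * (y * b * y⁻¹) := by group
        _ = _ := by rw [← this]; group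
    · simp only [Subgroup.coe_mul, MonoidHom.coe_mk, OneHom.coe_mk]
      rw [hθ, c1 i _ (Z.mul_mem n.2.2 (hb _ n.2.1 _ m.2.1)) _ m.2.2,
        c1 i _ n.2.2 _ (hb _ n.2.1 _ m.2.1)]

lemma main (k : ℕ) : ∃ V : Set ℝ, IsCompact V ∧ V.Countable ∧
    ∀ r ∈ Vals, 1 ≤ k * r → r ∈ V := by
  classical
  obtain ⟨C, hC⟩ := struct.{0} k
  have g0 := And.intro (T_comp (Nat.factorial_pos C)) (T_count (Nat.factorial_pos C))
  have g1 := ns_good (ns_good g0 C) C
  refine ⟨C • (C • T C.factorial) + T C.factorial, g1.1.add g0.1, g1.2.image2 g0.2 _, ?_⟩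
  rintro _ ⟨G, _, _, rfl⟩ hk
  haveI := Fintype.ofFinite G
  have hp : (0 : ℝ) < Nat.card G := by exact_mod_cast Nat.card_pos
  have hI : ((I G).ncard : ℝ) = Nat.card {x : G // orderOf x = 2} + 1 := by
    have : I G = insert 1 {x : G | orderOf x = 2} := by
      ext x
      simp only [I, Set.mem_ofPred_eq, Set.mem_insert_iff, orderOf_eq_prime_iff, sq]
      constructor
      · intro h; by_cases h1 : x = 1 <;> simp [h, h1]
      · rintro (rfl | h)
        · simp
        · exact h.1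
    rw [this, Set.ncard_insert_of_notMem (by simp) (Set.toFinite _)]
    push_cast; rfl
  obtain ⟨N, Z, hN, hNi, hZ, hZN, h1, h2⟩ := hC G (by
    unfold prop at hk
    rw [← mul_div_assoc, one_le_div hp] at hk
    have : (Nat.card G : ℝ) ≤ k * (I G).ncard := by
      rw [hI]; nlinarith [Nat.cast_nonneg (α := ℝ) k]
    exact_mod_cast this)
  have hx : ∀ q : G ⧸ N, ∃ x : G, (x : G ⧸ N) = q ∧
      (x * x = 1 ∨ ∀ n : N, x * n * (x * n) ≠ 1) := by
    intro q
    by_cases h : ∃ n : N, q.out * n * (q.out * n) = 1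
    · obtain ⟨n, hn⟩ := h
      exact ⟨q.out * n, by rw [QuotientGroup.mk_mul_of_mem _ n.2, QuotientGroup.out_eq'], Or.inl hn⟩
    · exact ⟨q.out, q.out_eq', Or.inr (not_exists.1 h)⟩
  choose x hx hx' using hx
  refine ⟨(I G).ncard / Nat.card G, ?_, -1 / Nat.card G, fun R hR => ?_, ?_⟩
  · have : ((I G).ncard : ℝ) = ∑ g : G, if g * g = 1 then 1 else 0 := by
      rw [Finset.sum_boole, Set.ncard_eq_toFinset_card']
      congr 2; ext; simp [I]
    rw [this, sum_cos N x hx, Finset.sum_div]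
    refine sum_mem ?_ _ _ (fun q _ => ?_) (by
      rw [Finset.card_univ, ← Nat.card_eq_fintype_card]; exact hNi)
    · simpa using sum_mem (T_zero C.factorial) (∅ : Finset ℕ) (fun _ => 0) (by simp) (Nat.zero_le C)
    · rcases hx' q with h | h
      · exact coset N Z hN hZ hZN h1 h2 _ h
      · simpa [h] using
          sum_mem (T_zero C.factorial) (∅ : Finset ℕ) (fun _ => 0) (by simp) (Nat.zero_le C)
  · rw [abs_div, abs_neg, abs_one, Nat.abs_cast, div_mul_eq_mul_div, one_mul, one_lt_div hp] at hR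
    have hR' : Nat.card G < R := by exact_mod_cast hR
    refine ⟨(-1, Nat.card G), ⟨?_, hR'.le.trans (Nat.le_self_pow (by norm_num) R)⟩, by simp⟩
    simpa using sum_mem (A := W C.factorial) (Or.inl rfl) ({0} : Finset ℕ) (fun _ => -1)
      (fun _ _ => Or.inr (Or.inl rfl)) (L := R ^ 2) (Nat.one_le_pow _ _ (by omega))
  · simp only [prop]
    rw [hI]; ring

theorem result :
    (∀ δ : ℝ, 0 < δ → (closure (Vals ∩ Set.Ici δ)).Countable) ∧
    (∃ t ∈ Set.Icc (0 : ℝ) (1 / 2), ∃ ε : ℝ, 0 < ε ∧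
      ∀ (G : Type) [Group G] [Finite G], ¬ |prop G - t| < ε) := by
  have A : ∀ δ : ℝ, 0 < δ → (closure (Vals ∩ Set.Ici δ)).Countable := by
    intro δ hδ
    obtain ⟨k, hk⟩ := exists_nat_gt (1 / δ)
    obtain ⟨V, h1, h2, h3⟩ := main k
    refine h2.mono (closure_minimal (fun r hr => h3 r hr.1 ?_) h1.isClosed)
    rw [div_lt_iff₀ hδ] at hk
    have : δ ≤ r := hr.2
    nlinarith [Nat.cast_nonneg (α := ℝ) k]
  refine ⟨A, ?_⟩
  have h := A (1 / 4) (by norm_num)
  have : ¬ Set.Icc (1 / 3 : ℝ) (1 / 2) ⊆ closure (Vals ∩ Set.Ici (1 / 4)) := fun hs => by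
    have := (h.mono hs).measure_zero MeasureTheory.volume
    norm_num at this
  obtain ⟨t, ht, hn⟩ := Set.not_subset.1 this
  rw [Metric.mem_closure_iff] at hn
  push Not at hn
  obtain ⟨ε, hε, hn⟩ := hn
  refine ⟨t, ⟨by linarith [ht.1], ht.2⟩, min ε (1 / 12), by positivity, fun G _ _ hG => ?_⟩
  have h1 := (lt_min_iff.1 hG)
  have := hn (prop G) ⟨⟨G, _, inferInstance, rfl⟩, by
    have := (abs_lt.1 h1.2).1
    show 1 / 4 ≤ prop G
    linarith [ht.1]⟩
  rw [Real.dist_eq, abs_sub_comm] at this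
  linarith [h1.1]

end Pool.Agent.Results.MP_32cd73_al.NotDense
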